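import Pool.Agent.H361R2.PP.Iface5

/-! Project PP, task PP-RUD (helper488): decreasing runs of consecutive gaps. -/

set_option autoImplicit false

open Finset

namespace Pool.Agent.H361R2.PP

namespace RUD

theorem P_inj {i j : ℕ} (h : P i = P j) : i = j :=
  Nat.nth_injective Nat.infinite_setOfPred_prime h

/-- the centres of the clusters -/
noncomputable def al (A B : ℝ) (k : ℕ) (i : Fin k) : ℝ := A * (B ^ k - B ^ (k - 1 - (i : ℕ)))

theorem pow_gap {B : ℝ} (hB : 1 ≤ B) {k : ℕ} {x y : Fin k} (h : x < y) :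
    B * B ^ (k - 1 - (y : ℕ)) ≤ B ^ (k - 1 - (x : ℕ)) := by
  rw [← pow_succ']
  apply pow_le_pow_right₀ hB
  have h1 : (x : ℕ) < y := h
  have h2 := y.2
  omega

theorem al_gap {A B : ℝ} (hA : 0 ≤ A) (hB : 1 ≤ B) {k : ℕ} {x y : Fin k} (h : x < y) :
    A * (B - 1) * B ^ (k - 1 - (y : ℕ)) ≤ al A B k y - al A B k x := by
  have h1 := pow_gap hB h
  unfold al
  have h2 : A * (B * B ^ (k - 1 - (y : ℕ))) ≤ A * B ^ (k - 1 - (x : ℕ)) :=
    mul_le_mul_of_nonneg_left h1 hA
  nlinarith

theorem al_gap' {A B : ℝ} (hA : 0 ≤ A) (hB : 1 ≤ B) {k : ℕ} {y z : Fin k} :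
    al A B k z - al A B k y ≤ A * B ^ (k - 1 - (y : ℕ)) := by
  unfold al
  have h1 : 0 ≤ A * B ^ (k - 1 - (z : ℕ)) := by positivity
  nlinarith

end RUD

open RUD in
theorem runDec_of (hS : Spa) (hE : Ext) (hT : Tra) : RunDec := by
  classical
  intro K r
  obtain ⟨K', hK'⟩ : ∃ K' : ℝ, K' = max K 1 := ⟨_, rfl⟩
  have hK1 : 1 ≤ K' := by rw [hK']; exact le_max_right _ _
  have hKK : K ≤ K' := by rw [hK']; exact le_max_left _ _
  obtain ⟨A, hA⟩ : ∃ A : ℝ, A = 2 * K' + 2 := ⟨_, rfl⟩
  obtain ⟨B, hB⟩ : ∃ B : ℝ, B = 2 * K' + 4 := ⟨_, rfl⟩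
  have hA0 : 0 ≤ A := by linarith
  have hB1 : 1 ≤ B := by linarith
  obtain ⟨m, hm⟩ : ∃ m : ℕ, m = r + 1 := ⟨_, rfl⟩
  obtain ⟨k, hk⟩ : ∃ k : ℕ, 10 ^ 7 * ((m + 1) + 1) ^ 2 ≤ k := ⟨_, le_rfl⟩
  obtain ⟨α, hα⟩ : ∃ α : Fin k → ℝ, α = al A B k := ⟨_, rfl⟩
  obtain ⟨Λ, hΛ⟩ : ∃ Λ : ℝ, Λ = A * B ^ k + 1 := ⟨_, rfl⟩
  have hΛ0 : 0 < Λ := by rw [hΛ]; positivity
  have hα1 : ∀ i, 0 ≤ α i ∧ α i + 1 ≤ Λ := by
    intro i
    have h1 : B ^ (k - 1 - (i : ℕ)) ≤ B ^ k := pow_le_pow_right₀ hB1 (by omega)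
    have h2 : 0 ≤ B ^ (k - 1 - (i : ℕ)) := by positivity
    rw [hα, hΛ]
    constructor
    · show 0 ≤ A * (B ^ k - B ^ (k - 1 - (i : ℕ)))
      apply mul_nonneg hA0
      linarith
    · show A * (B ^ k - B ^ (k - 1 - (i : ℕ))) + 1 ≤ A * B ^ k + 1
      have : 0 ≤ A * B ^ (k - 1 - (i : ℕ)) := mul_nonneg hA0 h2
      linarith
  have hT1 : ∀ y : Fin k, 1 ≤ B ^ (k - 1 - (y : ℕ)) := fun y => one_le_pow₀ hB1
  have hgap : ∀ x y : Fin k, x < y → 2 * K' + 1 ≤ α y - α x := by
    intro x y h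
    have h1 := al_gap hA0 hB1 h
    rw [← hα] at h1
    have h2 := hT1 y
    have h3 : A * (B - 1) ≤ A * (B - 1) * B ^ (k - 1 - (y : ℕ)) := by
      have : 0 ≤ A * (B - 1) := mul_nonneg hA0 (by linarith)
      nlinarith
    have h4 : 2 * K' + 1 ≤ A * (B - 1) := by
      rw [hA, hB]
      nlinarith
    exact h4.trans (h3.trans h1)
  have hα2 : ∀ i j, i < j → α i + 1 ≤ α j := by
    intro i j h
    have := hgap i j h
    linarith
  have hα3 : ∀ i j, i ≠ j → α i + 1 ≤ α j ∨ α j + 1 ≤ α i := by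
    intro i j h
    rcases lt_or_gt_of_ne h with h | h
    · exact Or.inl (hα2 i j h)
    · exact Or.inr (hα2 j i h)
  obtain ⟨c, hc, X₁, hX₁⟩ := hS k (m + 1) α 1 Λ hk one_pos hΛ0 hα1 hα3
  obtain ⟨c', hc', hT'⟩ := hT c Λ hc hΛ0
  -- the window is short
  obtain ⟨X₂, hX₂⟩ : ∃ X₂ : ℕ, ∀ X : ℕ, X₂ ≤ X → Λ * Real.log X ≤ X := by
    have h1 : ∀ᶠ x : ℝ in Filter.atTop, ‖Real.log x‖ ≤ (1 / Λ) * ‖x‖ :=
      Real.isLittleO_log_id_atTop.def (by positivity)
    obtain ⟨b, hb⟩ := Filter.eventually_atTop.1 h1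
    refine ⟨⌈b⌉₊ + 1, fun X hX => ?_⟩
    have h2 : b ≤ (X : ℝ) := by
      have h3 : ((⌈b⌉₊ + 1 : ℕ) : ℝ) ≤ X := by exact_mod_cast hX
      push_cast at h3
      linarith [Nat.le_ceil b]
    have h3 := hb X h2
    rw [Real.norm_eq_abs, Real.norm_eq_abs, abs_of_nonneg (Nat.cast_nonneg X : (0:ℝ) ≤ X)] at h3
    have h4 := (le_abs_self (Real.log X)).trans h3
    calc Λ * Real.log X ≤ Λ * (1 / Λ * X) := mul_le_mul_of_nonneg_left h4 hΛ0.le
      _ = X := by field_simp
  obtain ⟨N₀, hN₀⟩ := hT' (max (max X₁ X₂) 3)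
  refine ⟨c', hc', N₀, fun N hN => ?_⟩
  obtain ⟨X, hX, hR⟩ := hN₀ N hN
  have hXX₁ : X₁ ≤ X := (le_max_left _ _).trans ((le_max_left _ _).trans hX)
  have hXX₂ : X₂ ≤ X := (le_max_right _ _).trans ((le_max_left _ _).trans hX)
  have hX3 : 3 ≤ X := (le_max_right _ _).trans hX
  have hX3' : (3 : ℝ) ≤ X := by exact_mod_cast hX3
  have hX0 : (0 : ℝ) < X := by linarith
  have hL0 : 0 < Real.log X := Real.log_pos (by linarith)
  obtain ⟨L, hL⟩ : ∃ L : ℝ, L = Real.log X := ⟨_, rfl⟩
  rw [← hL] at hL0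
  let Q : ℕ → Prop := fun j => K * Real.log (P j) ≤ (P (j + r + 1) : ℝ) - P (j + r) ∧
    ∀ i < r, K * ((P (j + i + 2) : ℝ) - P (j + i + 1)) ≤ (P (j + i + 1) : ℝ) - P (j + i)
  have hfin := hR (fun q => ∀ j, P j = q → Q j) ?_
  · refine hfin.trans ?_
    have hsub : (range N).filter (fun j => ∀ j', P j' = P j → Q j') ⊆ (range N).filter (fun j => Q j) := by
      intro j hj
      rw [mem_filter] at hj ⊢
      exact ⟨hj.1, hj.2 j rfl⟩
    have hcard := card_le_card hsub
    have hcard' : (((range N).filter (fun j => ∀ j', P j' = P j → Q j')).card : ℝ) ≤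
        ((range N).filter (fun j => Q j)).card := by exact_mod_cast hcard
    convert hcard'
  · refine (hX₁ X hXX₁).trans ?_
    have hsub : (Ico X (2 * X)).filter (fun n => GoodS (m + 1) α 1 Λ X n) ⊆
        (Ico X (2 * X)).filter (fun n => ∃ a ∈ Icc 1 ⌊Λ * Real.log X⌋₊,
          (n + a).Prime ∧ ∀ j, P j = n + a → Q j) := by
      intro n hn
      rw [mem_filter] at hn ⊢
      obtain ⟨hnX, hg⟩ := hn
      rw [mem_Ico] at hnX
      refine ⟨mem_Ico.2 hnX, ?_⟩
      obtain ⟨j, a, d, h1, h2, -⟩ := hE k m α 1 Λ X n one_pos hΛ0 (by omega) hnX.1 hα2 hg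
      have h10 := h1 0 (Nat.zero_le _)
      refine ⟨a 0, ?_, ?_, ?_⟩
      · rw [mem_Icc]
        exact ⟨h10.2.1, Nat.le_floor h10.2.2.1⟩
      · rw [← h10.1]
        exact Nat.prime_nth_prime _
      · intro j' hj'
        have hjj : j' = j := by
          apply P_inj
          rw [hj', ← h10.1, add_zero]
        subst hjj
        -- gaps
        have hPr : ∀ i ≤ m, (P (j' + i) : ℝ) = n + a i := by
          intro i hi
          rw [(h1 i hi).1]
          push_cast
          ring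
        have hCL : ∀ i ≤ m, α (d i) * L < a i ∧ (a i : ℝ) ≤ (α (d i) + 1) * L := fun i hi => by
          rw [hL]
          exact (h1 i hi).2.2.2
        have hlow : ∀ i < m, (α (d (i + 1)) - α (d i) - 1) * L ≤ (P (j' + (i + 1)) : ℝ) - P (j' + i) := by
          intro i hi
          rw [hPr (i + 1) (by omega), hPr i (by omega)]
          have e1 := (hCL (i + 1) (by omega)).1
          have e2 := (hCL i (by omega)).2
          nlinarith
        have hupp : ∀ i < m, (P (j' + (i + 1)) : ℝ) - P (j' + i) ≤ (α (d (i + 1)) - α (d i) + 1) * L := by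
          intro i hi
          rw [hPr (i + 1) (by omega), hPr i (by omega)]
          have e1 := (hCL (i + 1) (by omega)).2
          have e2 := (hCL i (by omega)).1
          nlinarith
        have hP0 : (1 : ℝ) ≤ P j' := by
          have := (Nat.prime_nth_prime j').one_lt.le
          exact_mod_cast this
        have hPle : (P j' : ℝ) ≤ 3 * X := by
          have e0 := hPr 0 (Nat.zero_le _)
          rw [add_zero] at e0
          rw [e0]
          have e1 : (a 0 : ℝ) ≤ X := h10.2.2.1.trans (hX₂ X hXX₂)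
          have e2 : (n : ℝ) ≤ 2 * X := by exact_mod_cast hnX.2.le
          linarith
        have hlogP : Real.log (P j') ≤ 2 * L := by
          calc Real.log (P j') ≤ Real.log (3 * X) := Real.log_le_log (by linarith) hPle
            _ ≤ Real.log ((X : ℝ) * X) := Real.log_le_log (by linarith) (by nlinarith)
            _ = 2 * L := by rw [Real.log_mul (by linarith) (by linarith), hL]; ring
        have hlogP0 : 0 ≤ Real.log (P j') := Real.log_nonneg hP0
        refine ⟨?_, ?_⟩
        · have e1 := hlow r (by omega)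
          have e2 := hgap (d r) (d (r + 1)) (h2 r (by omega))
          have e3 : K * Real.log (P j') ≤ 2 * K' * L := by
            calc K * Real.log (P j') ≤ K' * Real.log (P j') := mul_le_mul_of_nonneg_right hKK hlogP0
              _ ≤ K' * (2 * L) := mul_le_mul_of_nonneg_left hlogP (by linarith)
              _ = 2 * K' * L := by ring
          have e4 : 2 * K' * L ≤ (α (d (r + 1)) - α (d r) - 1) * L :=
            mul_le_mul_of_nonneg_right (by linarith) hL0.le
          exact e3.trans (e4.trans e1)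
        · intro i hi
          have e1 := hlow i (by omega)
          have e2 := hupp (i + 1) (by omega)
          have hxy : d i < d (i + 1) := h2 i (by omega)
          have hyz : d (i + 1) < d (i + 2) := h2 (i + 1) (by omega)
          have e3 := al_gap hA0 hB1 hxy
          have e4 := al_gap' hA0 hB1 (y := d (i + 1)) (z := d (i + 2))
          rw [← hα] at e3 e4
          have e5 := hT1 (d (i + 1))
          set Tt := B ^ (k - 1 - ((d (i + 1) : Fin k) : ℕ)) with hTt
          have e6 : K' * (α (d (i + 2)) - α (d (i + 1)) + 1) ≤ α (d (i + 1)) - α (d i) - 1 := by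
            have f1 : K' * (α (d (i + 2)) - α (d (i + 1)) + 1) ≤ K' * (A * Tt + 1) := by
              apply mul_le_mul_of_nonneg_left _ (by linarith)
              linarith
            have f2 : K' * (A * Tt + 1) ≤ A * (B - 1) * Tt - 1 := by
              have f3 : A * (B - 1) * Tt - 1 - K' * (A * Tt + 1) = A * Tt * (K' + 3) - (K' + 1) := by
                rw [hB]; ring
              have f4 : K' + 1 ≤ A * Tt * (K' + 3) := by
                have f5 : A ≤ A * Tt := by nlinarith
                have f6 : A * (K' + 3) ≤ A * Tt * (K' + 3) :=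
                  mul_le_mul_of_nonneg_right f5 (by linarith)
                have f7 : K' + 1 ≤ A * (K' + 3) := by rw [hA]; nlinarith
                exact f7.trans f6
              linarith
            linarith
          have e7 : 0 ≤ (P (j' + i + 2) : ℝ) - P (j' + i + 1) := by
            have : P (j' + i + 1) ≤ P (j' + i + 2) :=
              (Nat.nth_strictMono Nat.infinite_setOfPred_prime).monotone (by omega)
            have : (P (j' + i + 1) : ℝ) ≤ P (j' + i + 2) := by exact_mod_cast this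
            linarith
          calc K * ((P (j' + i + 2) : ℝ) - P (j' + i + 1))
              ≤ K' * ((P (j' + i + 2) : ℝ) - P (j' + i + 1)) := mul_le_mul_of_nonneg_right hKK e7
            _ ≤ K' * ((α (d (i + 2)) - α (d (i + 1)) + 1) * L) :=
                mul_le_mul_of_nonneg_left e2 (by linarith)
            _ = K' * (α (d (i + 2)) - α (d (i + 1)) + 1) * L := by ring
            _ ≤ (α (d (i + 1)) - α (d i) - 1) * L := mul_le_mul_of_nonneg_right e6 hL0.le
            _ ≤ (P (j' + i + 1) : ℝ) - P (j' + i) := e1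
    have hcard := card_le_card hsub
    have hcard' : (((Ico X (2 * X)).filter (fun n => GoodS (m + 1) α 1 Λ X n)).card : ℝ) ≤
        ((Ico X (2 * X)).filter (fun n => ∃ a ∈ Icc 1 ⌊Λ * Real.log X⌋₊,
          (n + a).Prime ∧ ∀ j, P j = n + a → Q j)).card := by exact_mod_cast hcard
    convert hcard'

end Pool.Agent.H361R2.PP
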